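import Pool.Agent.Helper96.AW.GoalsA
import Pool.Agent.Helper26.AL.All

/-!
Project AW (MP_af6c86_pr), packet GE: contraction of a pair in a permutation.
-/

set_option autoImplicit false

namespace Pool.Agent.Helper95.AW.GE

open Finset Equiv Equiv.Perm
open Pool.Agent.Helper26.AF Pool.Agent.Helper96.AW
open Pool.Agent.Helper32.AF (skip skip_self skip_of_ne orb_skip orb_res)

section

variable {D : Type} [Fintype D] [DecidableEq D]

/-- `s₂ s₁ σ swap a b` -/
def cc (σ : Perm D) (a b : D) : Perm D :=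
  swap b (swap a (σ b) (σ a)) * (swap a (σ b) * (σ * swap a b))

theorem cc_a (σ : Perm D) (a b : D) (hab : a ≠ b) : cc σ a b a = a := by
  have h1 : swap a (σ b) (σ a) ≠ a := by
    intro h
    have h2 : swap a (σ b) (σ a) = swap a (σ b) (σ b) := by rw [h, swap_apply_right]
    exact hab (σ.injective ((swap a (σ b)).injective h2))
  unfold cc
  rw [mul_apply, mul_apply, mul_apply, swap_apply_left, swap_apply_right]
  exact swap_apply_of_ne_of_ne hab (Ne.symm h1)

theorem cc_b (σ : Perm D) (a b : D) : cc σ a b b = b := by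
  unfold cc
  rw [mul_apply, mul_apply, mul_apply, swap_apply_right, swap_apply_right]

theorem cc_z (σ : Perm D) (a b z : D) (ha : z ≠ a) (hb : z ≠ b) :
    cc σ a b z = swap b (swap a (σ b) (σ a)) (swap a (σ b) (σ z)) := by
  unfold cc
  rw [mul_apply, mul_apply, mul_apply, swap_apply_of_ne_of_ne ha hb]

theorem cc_res (σ : Perm D) (a b : D) (hab : a ≠ b) (x : D) :
    (cc σ a b x ≠ a ∧ cc σ a b x ≠ b) ↔ (x ≠ a ∧ x ≠ b) := by
  constructor
  · rintro ⟨h1, h2⟩
    exact ⟨fun h => h1 (by rw [h, cc_a σ a b hab]), fun h => h2 (by rw [h, cc_b])⟩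
  · rintro ⟨h1, h2⟩
    refine ⟨fun h => h1 ((cc σ a b).injective (by rw [h, cc_a σ a b hab])),
      fun h => h2 ((cc σ a b).injective (by rw [h, cc_b]))⟩

/-- the contracted permutation -/
def ctr (σ : Perm D) (a b : D) (hab : a ≠ b) : Perm {x : D // x ≠ a ∧ x ≠ b} :=
  (cc σ a b).subtypePerm (fun x => cc_res σ a b hab x)

/-- the number of the fixed points -/
theorem fix_eq (σ : Perm D) : fix σ = #(univ.filter fun x => σ x = x) := by
  unfold fix
  rw [Nat.card_eq_fintype_card, Fintype.card_subtype]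

theorem fix_ctr (σ : Perm D) (a b : D) (hab : a ≠ b) :
    fix (ctr σ a b hab) = #(univ.filter fun x => (x ≠ a ∧ x ≠ b) ∧ cc σ a b x = x) := by
  rw [fix_eq]
  apply Finset.card_bij (fun x _ => x.1)
  · intro x hx
    rw [mem_filter] at hx ⊢
    refine ⟨mem_univ _, x.2, ?_⟩
    have h1 := congrArg Subtype.val hx.2
    exact h1
  · intro x _ y _ h
    exact Subtype.ext h
  · intro y hy
    rw [mem_filter] at hy
    refine ⟨⟨y, hy.2.1⟩, ?_, rfl⟩
    rw [mem_filter]
    exact ⟨mem_univ _, Subtype.ext hy.2.2⟩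

/-- the number of the split off orbits -/
def ex (σ : Perm D) (a b : D) : ℕ :=
  (if σ b = a then 1 else 0) + (if swap a (σ b) (σ a) = b then 1 else 0)

theorem orb_ctr (σ : Perm D) (a b : D) (hab : a ≠ b) (κ : Perm D)
    (κ' : Perm {x : D // x ≠ a ∧ x ≠ b}) (hκ : IsPair κ) (hκa : κ a = b)
    (hκ' : ∀ x, (κ' x).1 = κ x.1) : orb (σ * κ) = orb (ctr σ a b hab * κ') + ex σ a b := by
  have hκb : κ b = a := by rw [← hκa]; exact (hκ a).1
  have p1 : (σ * κ) a = σ b := by rw [mul_apply, hκa]
  have p2 : skip (σ * κ) a b = swap a (σ b) (σ a) := by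
    unfold skip
    rw [mul_apply, p1, mul_apply, hκb]
  have p3 : skip (skip (σ * κ) a) b =
      swap b (swap a (σ b) (σ a)) * (swap a (σ b) * (σ * κ)) := by
    change swap b (skip (σ * κ) a b) * skip (σ * κ) a = _
    rw [p2]
    change _ * (swap a ((σ * κ) a) * (σ * κ)) = _
    rw [p1]
  have r1 : orb (skip (skip (σ * κ) a) b) = orb (σ * κ) + (if σ b = a then 0 else 1) +
      (if swap a (σ b) (σ a) = b then 0 else 1) := by
    rw [orb_skip okSWAP, orb_skip okSWAP, p1, p2]
  have hne : swap a (σ b) (σ a) ≠ a := by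
    intro h
    have h2 : swap a (σ b) (σ a) = swap a (σ b) (σ b) := by rw [h, swap_apply_right]
    exact hab (σ.injective ((swap a (σ b)).injective h2))
  have r2 : orb (ctr σ a b hab * κ') + 2 = orb (skip (skip (σ * κ) a) b) := by
    refine orb_res _ a b hab ?_ ?_ _ ?_
    · rw [p3, mul_apply, mul_apply, mul_apply, hκa, swap_apply_right]
      exact swap_apply_of_ne_of_ne hab (Ne.symm hne)
    · rw [p3, mul_apply, mul_apply, mul_apply, hκb, swap_apply_right]
    · intro x
      have hx : κ x.1 ≠ a ∧ κ x.1 ≠ b := by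
        rw [← hκ' x]
        exact (κ' x).2
      rw [p3, mul_apply, mul_apply, mul_apply, mul_apply]
      change cc σ a b (κ' x).1 = _
      rw [hκ' x, cc_z σ a b _ hx.1 hx.2]
  unfold ex
  rw [r1] at r2
  split_ifs at r2 ⊢ <;> omega

/-- case (i) -/
theorem case1 (σ : Perm D) (a b : D) (hab : a ≠ b) (ha : σ a = a) :
    fix (ctr σ a b hab) + ex σ a b ≤ fix σ := by
  rw [fix_ctr, fix_eq]
  have haF : a ∈ univ.filter fun x => σ x = x := by
    rw [mem_filter]
    exact ⟨mem_univ _, ha⟩
  have hba : σ b ≠ a := by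
    intro h
    exact hab (σ.injective (by rw [ha, h]))
  by_cases hb : σ b = b
  · have hbF : b ∈ (univ.filter fun x => σ x = x).erase a := by
      rw [mem_erase, mem_filter]
      exact ⟨Ne.symm hab, mem_univ _, hb⟩
    have hsub : (univ.filter fun x => (x ≠ a ∧ x ≠ b) ∧ cc σ a b x = x) ⊆
        ((univ.filter fun x => σ x = x).erase a).erase b := by
      intro z hz
      rw [mem_filter] at hz
      obtain ⟨-, ⟨hza, hzb⟩, hz⟩ := hz
      rw [mem_erase, mem_erase, mem_filter]
      refine ⟨hzb, hza, mem_univ _, ?_⟩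
      have h1 : σ z ≠ a := fun h => hza (σ.injective (by rw [ha, h]))
      have h2 : σ z ≠ b := fun h => hzb (σ.injective (by rw [hb, h]))
      rw [cc_z σ a b z hza hzb, ha, hb, swap_apply_left, swap_self, swap_apply_of_ne_of_ne h1 h2]
        at hz
      exact hz
    have h3 := card_le_card hsub
    have h4 := card_erase_add_one hbF
    have h5 := card_erase_add_one haF
    have h6 : ex σ a b = 1 := by
      unfold ex
      rw [if_neg hba, ha, hb, swap_apply_left, if_pos rfl]
    omega
  · have hsub : (univ.filter fun x => (x ≠ a ∧ x ≠ b) ∧ cc σ a b x = x) ⊆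
        insert (σ b) ((univ.filter fun x => σ x = x).erase a) := by
      intro z hz
      rw [mem_filter] at hz
      obtain ⟨-, ⟨hza, hzb⟩, hz⟩ := hz
      rw [mem_insert, mem_erase, mem_filter]
      have h1 : σ z ≠ a := fun h => hza (σ.injective (by rw [ha, h]))
      have h2 : σ z ≠ σ b := fun h => hzb (σ.injective h)
      rw [cc_z σ a b z hza hzb, ha, swap_apply_left, swap_apply_of_ne_of_ne h1 h2] at hz
      by_cases h3 : σ z = b
      · left
        rw [h3, swap_apply_left] at hz
        exact hz.symm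
      · right
        rw [swap_apply_of_ne_of_ne h3 h2] at hz
        exact ⟨hza, mem_univ _, hz⟩
    have h3 := card_le_card hsub
    have h4 := card_insert_le (σ b) ((univ.filter fun x => σ x = x).erase a)
    have h5 := card_erase_add_one haF
    have h6 : ex σ a b = 0 := by
      unfold ex
      rw [if_neg hba, ha, swap_apply_left, if_neg hb]
    omega

/-- case (ii) -/
theorem case2 (σ : Perm D) (a b : D) (hab : a ≠ b) (hσ : ∀ x, σ x ≠ x) :
    fix (ctr σ a b hab) + ex σ a b ≤
      ((if σ (σ b) = a then 1 else 0) + (if σ (σ a) = b then 1 else 0)) +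
      ((if σ b = a then 1 else 0) + (if σ a = b then 1 else 0)) := by
  have hs : swap a (σ b) (σ a) = σ a :=
    swap_apply_of_ne_of_ne (hσ a) fun h => hab (σ.injective h)
  have hex : ex σ a b = (if σ b = a then 1 else 0) + (if σ a = b then 1 else 0) := by
    unfold ex
    rw [hs]
  rw [hex]
  apply Nat.add_le_add_right
  rw [fix_ctr]
  have hsub : (univ.filter fun x => (x ≠ a ∧ x ≠ b) ∧ cc σ a b x = x) ⊆
      (if σ (σ b) = a then {σ b} else ∅) ∪ (if σ (σ a) = b then {σ a} else ∅) := by
    intro z hz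
    rw [mem_filter] at hz
    obtain ⟨-, ⟨hza, hzb⟩, hz⟩ := hz
    have h1 : σ z ≠ σ b := fun h => hzb (σ.injective h)
    have h2 : σ z ≠ σ a := fun h => hza (σ.injective h)
    rw [cc_z σ a b z hza hzb, hs] at hz
    rw [mem_union]
    by_cases h3 : σ z = a
    · left
      rw [h3, swap_apply_left,
        swap_apply_of_ne_of_ne (hσ b) (fun h => hab (σ.injective h.symm))] at hz
      rw [hz, if_pos h3, mem_singleton]
    · rw [swap_apply_of_ne_of_ne h3 h1] at hz
      by_cases h4 : σ z = b
      · right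
        rw [h4, swap_apply_left] at hz
        rw [hz, if_pos h4, mem_singleton]
      · rw [swap_apply_of_ne_of_ne h4 h2] at hz
        exact absurd hz (hσ z)
  refine (card_le_card hsub).trans ((card_union_le _ _).trans (Nat.add_le_add ?_ ?_))
  · split_ifs <;> simp
  · split_ifs <;> simp

end

/-- PACKET GE. -/
theorem t : Pool.Agent.Helper96.AW.S_GE := by
  intro D _ _ σ a b hab
  refine ⟨ctr σ a b hab, ex σ a b, ?_, case1 σ a b hab, fun hσ => ?_⟩
  · intro κ κ' h1 h2 h3
    exact orb_ctr σ a b hab κ κ' h1 h2 h3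
  · have h := case2 σ a b hab hσ
    refine ⟨?_, ?_⟩
    · split_ifs at h <;> omega
    · intro h1 h2 h3 h4
      have e1 : ¬ σ a = b := fun h => h1 h.symm
      have e2 : ¬ σ b = a := fun h => h2 (Equiv.Perm.eq_inv_iff_eq.2 h)
      have e3 : ¬ σ (σ a) = b := fun h => h3 h.symm
      have e4 : ¬ σ (σ b) = a := fun h =>
        h4 (Equiv.Perm.eq_inv_iff_eq.2 (Equiv.Perm.eq_inv_iff_eq.2 h))
      rw [if_neg e1, if_neg e2, if_neg e3, if_neg e4] at h
      omega

end Pool.Agent.Helper95.AW.GE
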